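import Pool.Agent.N255.BG.Width

/-!
# Antichains of free pmp actions of nonamenable groups

For every countable nonamenable group `Γ` the width of the class of the free pmp actions of `Γ` on
the standard non-atomic probability space, preordered by weak containment, is the cardinality of
the continuum, and it is attained.

The antichain consists of the disjoint unions, of weights `t` and `1 - t`, `0 < t < 1/2`, of two
copies of the Bernoulli shift of `Γ`. The Bernoulli shift of a nonamenable group has spectral gap, so
the almost invariant sets of such an action have measures close to `0`, `t`, `1 - t` or `1`.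
-/

set_option autoImplicit false

namespace Pool.Agent.Results.MP_651bcb_an.WidthContinuum

open MeasureTheory Pool.Agent.N255.BG

/-- For every countable nonamenable group `Γ`, and every standard non-atomic probability space
`(X, μ)`, the width of the class of the free pmp actions of `Γ` on `(X, μ)` is `|ℝ|`; moreover there is
an antichain of cardinality `|ℝ|`. -/
theorem result (Γ : Type) [Group Γ] [Countable Γ] (hΓ : ¬ IsAmenable Γ)
    (X : Type) [MeasurableSpace X] [StandardBorelSpace X] (μ : Measure X)
    [IsProbabilityMeasure μ] [NullSingletonClass μ] :
    width Γ μ = Cardinal.mk ℝ ∧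
      ∃ 𝒜 : Set (FreeAction Γ μ), Antichain 𝒜 ∧ Cardinal.mk 𝒜 = Cardinal.mk ℝ := by
  rw [Cardinal.mk_real]
  obtain ⟨h1, -, h2⟩ := main (μ := μ) hΓ
  exact ⟨h2, h1⟩

end Pool.Agent.Results.MP_651bcb_an.WidthContinuum
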